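import Pool.Agent.helper13.U4.Spec

/-! U4 (MP_62ffdf_lc), row GST. -/

set_option autoImplicit false

namespace Pool.Agent.U4

/-- parity of the binomial coefficient -/
def GST_b (j i : ℕ) : Bool := decide (Nat.choose j i % 2 = 1)

theorem GST_e0 (j i : ℕ) : g (2 * j) (4 * i) = GST_b j i := by
  unfold g GST_b
  rw [show 4 * i % 4 = 0 by omega, show 2 * j / 2 = j by omega, show 4 * i / 4 = i by omega]
  simp

theorem GST_ec (j i c : ℕ) (h0 : c ≠ 0) (hc : c < 4) : g (2 * j) (4 * i + c) = false := by
  unfold g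
  have h1 : (4 * i + c) % 4 = c := by omega
  have h2 : 2 * j % 2 = 0 := by omega
  rw [h1, h2]
  simp [h0]

theorem GST_o (j i c : ℕ) (hc : c < 3) : g (2 * j + 1) (4 * i + c) = GST_b j i := by
  unfold g GST_b
  have h1 : (4 * i + c) % 4 = c := by omega
  have h2 : (2 * j + 1) % 2 = 1 := by omega
  have h3 : (2 * j + 1) / 2 = j := by omega
  have h4 : (4 * i + c) / 4 = i := by omega
  have h5 : c ≠ 3 := by omega
  rw [h1, h2, h3, h4]
  simp [h5]

theorem GST_o3 (j i : ℕ) : g (2 * j + 1) (4 * i + 3) = false := by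
  unfold g
  have h1 : (4 * i + 3) % 4 = 3 := by omega
  rw [h1]
  simp

theorem GST_pascal (j i : ℕ) : GST_b (j + 1) (i + 1) = ex1 (GST_b j (i + 1)) false (GST_b j i) := by
  unfold GST_b ex1
  rw [Nat.choose_succ_succ]
  rcases Nat.mod_two_eq_zero_or_one (Nat.choose j i) with h1 | h1 <;>
    rcases Nat.mod_two_eq_zero_or_one (Nat.choose j (i + 1)) with h2 | h2 <;>
    simp [Nat.add_mod, h1, h2]

theorem GST_dec (r : ℕ) : ∃ i c : ℕ, c < 4 ∧ r = 4 * i + c := ⟨r / 4, r % 4, by omega, by omega⟩

theorem GST : GST_stmt := by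
  refine ⟨?_, ?_, ?_⟩
  · intro d
    unfold g
    simp
  · intro d
    have h0 : g d 0 = true := by
      unfold g
      simp
    have h1 : ∀ d, g d 1 = decide (d % 2 = 1) := by
      intro d
      unfold g
      simp
    rw [h0, h1, h1]
    unfold ex1
    rcases Nat.mod_two_eq_zero_or_one d with h | h
    · have h2 : (d + 1) % 2 = 1 := by omega
      simp [h, h2]
    · have h2 : (d + 1) % 2 = 0 := by omega
      simp [h, h2]
  · intro d r
    obtain ⟨i, c, hc, rfl⟩ := GST_dec r
    rcases Nat.even_or_odd' d with ⟨j, rfl | rfl⟩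
    · have hcases : c = 0 ∨ c = 1 ∨ c = 2 ∨ c = 3 := by omega
      rcases hcases with rfl | rfl | rfl | rfl
      · rw [GST_o j i 2 (by norm_num), GST_ec j i 2 (by norm_num) (by norm_num),
          show 4 * i + 0 + 1 = 4 * i + 1 by ring, GST_ec j i 1 (by norm_num) (by norm_num), show 4 * i + 0 = 4 * i by ring,
          GST_e0]
        unfold ex1
        simp
      · rw [show 4 * i + 1 + 2 = 4 * i + 3 by ring, show 4 * i + 1 + 1 = 4 * i + 2 by ring, GST_o3,
          GST_ec j i 3 (by norm_num) (by norm_num), GST_ec j i 2 (by norm_num) (by norm_num),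
          GST_ec j i 1 (by norm_num) (by norm_num)]
        rfl
      · rw [show 4 * i + 2 + 2 = 4 * (i + 1) by ring, show 4 * i + 2 + 1 = 4 * i + 3 by ring, GST_e0,
          GST_ec j i 3 (by norm_num) (by norm_num), GST_ec j i 2 (by norm_num) (by norm_num)]
        have := GST_o j (i + 1) 0 (by norm_num)
        rw [add_zero] at this
        rw [this]
        unfold ex1
        simp
      · rw [show 4 * i + 3 + 2 = 4 * (i + 1) + 1 by ring, show 4 * i + 3 + 1 = 4 * (i + 1) by ring, GST_e0,
          GST_ec j (i + 1) 1 (by norm_num) (by norm_num), GST_ec j i 3 (by norm_num) (by norm_num),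
          GST_o j (i + 1) 1 (by norm_num)]
        unfold ex1
        simp
    · have hcases : c = 0 ∨ c = 1 ∨ c = 2 ∨ c = 3 := by omega
      rw [show 2 * j + 1 + 1 = 2 * (j + 1) by ring]
      rcases hcases with rfl | rfl | rfl | rfl
      · rw [show 4 * i + 0 + 2 = 4 * i + 2 by ring, show 4 * i + 0 + 1 = 4 * i + 1 by ring,
          GST_ec (j + 1) i 2 (by norm_num) (by norm_num),
          GST_o j i 2 (by norm_num), GST_o j i 1 (by norm_num), GST_o j i 0 (by norm_num)]
        unfold ex1
        cases GST_b j i <;> rfl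
      · rw [show 4 * i + 1 + 2 = 4 * i + 3 by ring, show 4 * i + 1 + 1 = 4 * i + 2 by ring,
          GST_ec (j + 1) i 3 (by norm_num) (by norm_num), GST_o3,
          GST_o j i 2 (by norm_num), GST_o j i 1 (by norm_num)]
        unfold ex1
        cases GST_b j i <;> rfl
      · rw [show 4 * i + 2 + 2 = 4 * (i + 1) by ring, show 4 * i + 2 + 1 = 4 * i + 3 by ring, GST_e0, GST_o3,
          GST_o j i 2 (by norm_num)]
        have := GST_o j (i + 1) 0 (by norm_num)
        rw [add_zero] at this
        rw [this]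
        exact GST_pascal j i
      · rw [show 4 * i + 3 + 2 = 4 * (i + 1) + 1 by ring, show 4 * i + 3 + 1 = 4 * (i + 1) by ring,
          GST_ec (j + 1) (i + 1) 1 (by norm_num) (by norm_num), GST_o3,
          GST_o j (i + 1) 1 (by norm_num)]
        have := GST_o j (i + 1) 0 (by norm_num)
        rw [add_zero] at this
        rw [this]
        unfold ex1
        cases GST_b j (i + 1) <;> rfl

end Pool.Agent.U4
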